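import Pool.Agent.Work.MP_223b32_t3.FLAR
import Pool.Agent.Work.MP_223b32_t3.MOD8R
import Pool.Agent.Work.MP_223b32_t3_helper50.GAM
import Pool.Agent.Work.MP_223b32_t3_helper50.ONER
import Pool.Agent.Work.MP_223b32_t3_helper92.SUMR
import Pool.Agent.Work.MP_223b32_tc.FLA
import Pool.Agent.Work.MP_223b32_tc.LIN
import Pool.Agent.Work.MP_223b32_tc_h25.FROB
import Pool.Agent.Work.MP_223b32_tc_h25.RED
import Pool.Agent.Work.MP_223b32_tc_helper10.EP
import Pool.Agent.Work.MP_223b32_tc_helper10.PC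
import Pool.Agent.Work.MP_223b32_tc_helper15.COUNT
import Pool.Agent.Work.MP_223b32_tc_helper15.FE
import Pool.Agent.Work.MP_223b32_tc_helper28.CHS
import Pool.Agent.Work.MP_223b32_tc_helper28.EXI
import Pool.Agent.Work.MP_223b32_tc_helper28.NV
import Pool.Agent.Work.MP_223b32_tc_helper39.WEIL
import Pool.Agent.Work.MP_223b32_tc_helper44.NA
import Pool.Agent.Work.MP_223b32_tc_helper50.B0
import Pool.Agent.Work.MP_223b32_tc_helper50.RHO
import Pool.Agent.Work.MP_223b32_tc_helper52.NW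
import Pool.Agent.Work.MP_223b32_tc_helper54.B4
import Pool.Agent.Work.MP_223b32_tc_helper65.LE
import Pool.Agent.Work.MP_223b32_tc_helper65.RU
import Pool.Agent.Work.MP_223b32_tc_helper76.ROOTS
import Pool.Agent.Work.MP_223b32_tc_helper82.DSYM
import Pool.Agent.Work.MP_223b32_tc_helper82.EXT
import Pool.Agent.Work.MP_223b32_tc_helper82.ORD
import Pool.Agent.Work.MP_223b32_tc_helper83.MOORE
import Pool.Agent.Work.MP_223b32_tc_helper88.SQF
import Pool.Agent.Work.MP_223b32_tc_helper88.STAR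
import Pool.Agent.Work.MP_223b32_tc_helper94.HD

/-!
# Final assembly of the relative version (block MAINR, helper79; copy of helper28's MAIN)
-/

namespace Pool.Agent.Work.T3

open Finset Polynomial Pool.Agent.Work.TC

/-- The bound for the number of exceptions. -/
theorem main_boundR (hSUMR : Stmt_SUMR) (hEXT : Stmt_EXT) (hROOTS : Stmt_ROOTS) (F : Type) [Field F]
    [Fintype F] (hF : ringChar F ≠ 2) (n : ℕ) (hn : n.Prime) (hn2 : n ≠ 2) (r A B J : ℕ)
    (hr : 1 ≤ r) (hB : 1 ≤ B) (hJ : 1 ≤ J) :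
    ((exceptional F n r A B J).ncard : ℝ) ≤
      40 * J * (Fintype.card F : ℝ) ^ ((A + 2) * (B + 1) ^ 2) * ((n : ℝ) * r) ^ (2 * J) *
        2 ^ (-(orderOf (2 : ZMod n) : ℝ) / (8 * J)) * ((irr F n).ncard : ℝ) ^ r := by
  obtain ⟨K, _, _, _, hK⟩ := hEXT F n hn.pos
  have h1 := hSUMR F K hF n hn hn2 hK r A B J hr hB hJ
  have h2 := hROOTS F K n hn hK r fun f => ¬ TateRel F A B J (n - 1) f
  have h3 := hROOTS F K n hn hK 1 fun _ => True
  have h4 : {f : Fin r → F[X] | (∀ t, f t ∈ irr F n) ∧ ¬ TateRel F A B J (n - 1) f} =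
      exceptional F n r A B J := rfl
  rw [h4] at h2
  have h5 : Nat.card {a : Fin r → K // (∀ t, a t ∉ (algebraMap F K).range) ∧
      ¬ TateRel F A B J (n - 1) fun t => minpoly F (a t)} =
      Nat.card {a : Fin r → K // (∀ t, a t ∉ (algebraMap F K).range) ∧
        Bad F A B J (n - 1) a} := rfl
  rw [h5] at h2
  have h6 : Nat.card {a : Fin 1 → K // (∀ t, a t ∉ (algebraMap F K).range) ∧ True} =
      Nat.card {a : K // a ∉ (algebraMap F K).range} := by
    refine Nat.card_congr ⟨fun a => ⟨a.1 0, a.2.1 0⟩, fun a => ⟨fun _ => a.1, fun _ => a.2, trivial⟩,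
      fun a => ?_, fun a => rfl⟩
    refine Subtype.ext (funext fun t => ?_)
    rw [Subsingleton.elim t 0]
  have h7 : {f : Fin 1 → F[X] | (∀ t, f t ∈ irr F n) ∧ True}.ncard = (irr F n).ncard := by
    rw [← Nat.card_coe_set_eq, ← Nat.card_coe_set_eq]
    refine Nat.card_congr ⟨fun f => ⟨f.1 0, f.2.1 0⟩, fun f => ⟨fun _ => f.1, fun _ => f.2, trivial⟩,
      fun f => ?_, fun f => rfl⟩
    refine Subtype.ext (funext fun t => ?_)
    rw [Subsingleton.elim t 0]
  rw [h6, h7, pow_one] at h3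
  rw [← h2, ← h3] at h1
  push_cast at h1
  rw [mul_pow] at h1
  have hn0 : (0 : ℝ) < (n : ℝ) ^ r := by
    have := hn.pos
    positivity
  have h8 : (n : ℝ) ^ r * ((exceptional F n r A B J).ncard : ℝ) ≤ (n : ℝ) ^ r *
      (40 * J * (Fintype.card F : ℝ) ^ ((A + 2) * (B + 1) ^ 2) * ((n : ℝ) * r) ^ (2 * J) *
        2 ^ (-(orderOf (2 : ZMod n) : ℝ) / (8 * J)) * ((irr F n).ncard : ℝ) ^ r) := by
    refine h1.trans (le_of_eq ?_)
    rw [mul_pow]
    ring
  exact le_of_mul_le_mul_left h8 hn0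

/-- All blocks together. -/
theorem all_boundR (F : Type) [Field F] [Fintype F] (hF : ringChar F ≠ 2) (n : ℕ) (hn : n.Prime)
    (hn2 : n ≠ 2) (r A B J : ℕ) (hr : 1 ≤ r) (hB : 1 ≤ B) (hJ : 1 ≤ J) :
    ((exceptional F n r A B J).ncard : ℝ) ≤
      40 * J * (Fintype.card F : ℝ) ^ ((A + 2) * (B + 1) ^ 2) * ((n : ℝ) * r) ^ (2 * J) *
        2 ^ (-(orderOf (2 : ZMod n) : ℝ) / (8 * J)) * ((irr F n).ncard : ℝ) ^ r := by
  have hNA : Stmt_NA := stmt_NA stmt_NV (stmt_EXI stmt_HD)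
  have hCHS : Stmt_CHS := stmt_CHS (stmt_WEIL hNA) stmt_SQF
  have hFROB : Stmt_FROB := stmt_FROB stmt_B0 stmt_EP stmt_LE stmt_PC stmt_NW
  have hONER : Stmt_ONER := stmt_ONER hFROB (stmt_B4 stmt_MOORE) stmt_FE stmt_RHO stmt_RED
    (stmt_MOD8R stmt_RU) stmt_STAR stmt_DSYM (stmt_FLAR stmt_FLA)
  have hSUMR : Stmt_SUMR := stmt_SUMR hONER stmt_GAM stmt_LIN (stmt_COUNT hCHS)
  exact main_boundR hSUMR stmt_EXT stmt_ROOTS F hF n hn hn2 r A B J hr hB hJ

end Pool.Agent.Work.T3
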